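import Mathlib
import Pool.Agent.CSG.LDb

/-!
# CLV/Ext: extension of a function given along an embedded arc

`c : ℝ → V` smooth, injective and immersive on the compact set `C`; `g : ℝ → ℝ` smooth; `F` closed, not met by `c` on
`C ∩ tsupport g`.  Then there is a smooth `f : V → ℝ` with `f (c u) = g u` for `u ∈ C` and `f = 0` on `F`.
-/

open scoped ContDiff Topology Manifold
open Set Filter

namespace Pool.Agent.CLV

variable {V : Type*} [NormedAddCommGroup V] [NormedSpace ℝ V]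

/-- local left inverse of an immersed curve -/
theorem Ext_left {c : ℝ → V} {u₀ : ℝ} (hc : ∀ᶠ u in 𝓝 u₀, ContDiffAt ℝ ∞ c u) (h : deriv c u₀ ≠ 0) :
    ∃ φ : V → ℝ, (∀ᶠ y in 𝓝 (c u₀), ContDiffAt ℝ ∞ φ y) ∧ ∀ᶠ u in 𝓝 u₀, φ (c u) = u := by
  obtain ⟨ℓ, hℓ⟩ := SeparatingDual.exists_eq_one (R := ℝ) h
  have hd : HasDerivAt c (deriv c u₀) u₀ := (hc.self_of_nhds.differentiableAt (by simp)).hasDerivAt
  have hψ : ∀ᶠ u in 𝓝 u₀, ContDiffAt ℝ ∞ (fun u => ℓ (c u)) u := by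
    filter_upwards [hc] with u hu
    exact ℓ.contDiff.contDiffAt.comp u hu
  have hψd : HasDerivAt (fun u => ℓ (c u)) 1 u₀ := by
    have := ℓ.hasFDerivAt.comp_hasDerivAt u₀ hd
    rwa [hℓ] at this
  have hld : IsLocalDiffeomorphAt 𝓘(ℝ, ℝ) 𝓘(ℝ, ℝ) ∞ (fun u => ℓ (c u)) u₀ := by
    refine Pool.Agent.CSG.ld_of_fderiv hψ rfl fun v hv => ?_
    have e := hψd.hasFDerivAt.fderiv
    rw [e] at hv
    simpa using hv
  refine ⟨fun v => hld.localInverse (ℓ v), ?_, ?_⟩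
  · have h1 : ∀ᶠ y in 𝓝 (ℓ (c u₀)), y ∈ hld.localInverse.source :=
      hld.localInverse.open_source.mem_nhds hld.localInverse_mem_source
    have h2 : ContinuousAt (fun v => ℓ v) (c u₀) := ℓ.continuous.continuousAt
    filter_upwards [h2.eventually h1] with y hy
    have h3 : ContDiffAt ℝ ∞ hld.localInverse (ℓ y) :=
      (hld.localInverse_contMDiffOn.contMDiffAt (hld.localInverse.open_source.mem_nhds hy)).contDiffAt
    exact ContDiffAt.comp y (g := hld.localInverse) (f := fun v => ℓ v) h3 ℓ.contDiff.contDiffAt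
  · exact hld.localInverse_eventuallyEq_left

theorem ext_curve [FiniteDimensional ℝ V] {c : ℝ → V} {C : Set ℝ} (hc : ∀ u ∈ C, ∀ᶠ v in 𝓝 u, ContDiffAt ℝ ∞ c v)
    (hC : IsCompact C) (hinj : InjOn c C) (himm : ∀ u ∈ C, deriv c u ≠ 0) {g : ℝ → ℝ} (hg : ContDiff ℝ ∞ g)
    {F : Set V} (hF : IsClosed F) (h0 : ∀ u ∈ C, u ∈ tsupport g → c u ∉ F) :
    ∃ f : V → ℝ, ContDiff ℝ ∞ f ∧ (∀ u ∈ C, f (c u) = g u) ∧ ∀ w ∈ F, f w = 0 := by
  have hcc : ContinuousOn c C := fun u hu => (hc u hu).self_of_nhds.continuousAt.continuousWithinAt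
  -- near a point `w`, the parameters in `C` are near the parameter of `w`
  have hnear : ∀ w : V, ∀ U : Set ℝ, IsOpen U → (∀ u ∈ C, c u = w → u ∈ U) →
      ∀ᶠ y in 𝓝 w, ∀ u ∈ C, c u = y → u ∈ U := by
    intro w U hU hw
    have h1 : IsCompact (c '' (C \ U)) := (hC.diff hU).image_of_continuousOn (hcc.mono sdiff_subset)
    have h2 : w ∉ c '' (C \ U) := by
      rintro ⟨u, ⟨hu1, hu2⟩, hu3⟩
      exact hu2 (hw u hu1 hu3)
    filter_upwards [h1.isClosed.isOpen_compl.mem_nhds h2] with y hy u hu huy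
    by_contra hn
    exact hy ⟨u, ⟨hu, hn⟩, huy⟩
  have hconv : ∀ w : V, Convex ℝ {y : ℝ | (∀ u ∈ C, c u = w → y = g u) ∧ (w ∈ F → y = 0)} := by
    rintro w a ⟨ha1, ha2⟩ b ⟨hb1, hb2⟩ s t hs ht hst
    refine ⟨fun u hu hw => ?_, fun hw => ?_⟩
    · rw [ha1 u hu hw, hb1 u hu hw, ← add_smul, hst, one_smul]
    · rw [ha2 hw, hb2 hw, smul_zero, smul_zero, add_zero]
  have hloc : ∀ w : V, ∃ U ∈ 𝓝 w, ∃ h : V → ℝ, ContMDiffOn 𝓘(ℝ, V) 𝓘(ℝ, ℝ) ((⊤ : ℕ∞) : WithTop ℕ∞) h U ∧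
      ∀ y ∈ U, h y ∈ {z : ℝ | (∀ u ∈ C, c u = y → z = g u) ∧ (y ∈ F → z = 0)} := by
    intro w
    by_cases hwF : w ∈ F
    · -- `0` works near `w`
      have h1 : ∀ᶠ y in 𝓝 w, ∀ u ∈ C, c u = y → u ∈ (tsupport g)ᶜ :=
        hnear w _ (isClosed_tsupport g).isOpen_compl fun u hu hw hs => h0 u hu hs (hw ▸ hwF)
      refine ⟨_, h1, fun _ => 0, contMDiffOn_const, fun y hy => ⟨fun u hu huy => ?_, fun _ => rfl⟩⟩
      exact (image_eq_zero_of_notMem_tsupport (hy u hu huy)).symm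
    · by_cases hwC : ∃ u₀ ∈ C, c u₀ = w
      · obtain ⟨u₀, hu₀, rfl⟩ := hwC
        obtain ⟨φ, hφ, hφc⟩ := Ext_left (hc u₀ hu₀) (himm u₀ hu₀)
        obtain ⟨U, hUs, hU, hU₀⟩ := mem_nhds_iff.1 hφc
        have h1 : ∀ᶠ y in 𝓝 (c u₀), ∀ u ∈ C, c u = y → u ∈ U := by
          refine hnear _ U hU fun u hu hw => ?_
          rw [hinj hu hu₀ hw]
          exact hU₀
        have h2 : ∀ᶠ y in 𝓝 (c u₀), ContDiffAt ℝ ∞ φ y := hφ
        have h3 : ∀ᶠ y in 𝓝 (c u₀), y ∉ F := hF.isOpen_compl.mem_nhds hwF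
        refine ⟨_, (h1.and (h2.and h3)), fun y => g (φ y), ?_, ?_⟩
        · rintro y ⟨-, hy2, -⟩
          exact ((hg.contDiffAt.comp y hy2).contMDiffAt).contMDiffWithinAt
        · rintro y ⟨hy1, -, hy3⟩
          refine ⟨fun u hu huy => ?_, fun hy => absurd hy hy3⟩
          have h4 : φ (c u) = u := hUs (hy1 u hu huy)
          show g (φ y) = g u
          rw [← huy, h4]
      · -- no parameter near `w`
        have h1 : ∀ᶠ y in 𝓝 w, ∀ u ∈ C, c u = y → u ∈ (∅ : Set ℝ) :=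
          hnear w ∅ isOpen_empty fun u hu hw => absurd ⟨u, hu, hw⟩ hwC
        exact ⟨_, h1, fun _ => 0, contMDiffOn_const, fun y hy =>
          ⟨fun u hu huy => absurd (hy u hu huy) (notMem_empty u), fun _ => rfl⟩⟩
  obtain ⟨f, hf⟩ := exists_contMDiffMap_forall_mem_convex_of_local (n := ⊤) 𝓘(ℝ, V) (F := ℝ)
    (t := fun w : V => {y : ℝ | (∀ u ∈ C, c u = w → y = g u) ∧ (w ∈ F → y = 0)}) hconv hloc
  exact ⟨f, f.contMDiff.contDiff, fun u hu => (hf (c u)).1 u hu rfl, fun w hw => (hf w).2 hw⟩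

end Pool.Agent.CLV
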